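import Mathlib
import Pool.Agent.Helper649.FrdA3
import Pool.Agent.Helper649.FrdL

/-!
For `α = 3` the normalised recurrence coefficients `r_n` of `exp(-|x|^3)` have no expansion of
form (E) with `j_0 = 3`, whatever the coefficients are. Hence the answer to the question is no.
-/

set_option autoImplicit false

open Filter Asymptotics Topology MeasureTheory Polynomial

namespace Pool.Agent.Results.MP_6cbd85_an.NoPowerExpansion

/-- `a` is the sequence of recurrence coefficients of `exp(-|x|^α) dx`: there are polynomials `p n`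
of degree `n` with positive leading coefficients, orthonormal for this weight, with
`x p_0 = a_1 p_1`, `x p_{n+1} = a_{n+2} p_{n+2} + a_{n+1} p_n` and all `a_{n+1}` positive. -/
def IsRecurrence (α : ℝ) (a : ℕ → ℝ) : Prop :=
  ∃ p : ℕ → ℝ[X], (∀ n, (p n).natDegree = n ∧ 0 < (p n).leadingCoeff) ∧
    (∀ m n, ∫ x : ℝ, (p m).eval x * (p n).eval x * Real.exp (-(|x| ^ α)) = if m = n then 1 else 0) ∧
    X * p 0 = C (a 1) * p 1 ∧
    (∀ n, X * p (n + 1) = C (a (n + 2)) * p (n + 2) + C (a (n + 1)) * p n) ∧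
    ∀ n, 0 < a (n + 1)

/-- the constant `C(α)` -/
noncomputable def Cα (α : ℝ) : ℝ :=
  2 ^ α * Real.Gamma ((α + 1) / 2) / (√Real.pi * Real.Gamma (α / 2))

/-- `r_n = a_n (C(α) / n)^{1/α}` -/
noncomputable def rn (α : ℝ) (a : ℕ → ℝ) (n : ℕ) : ℝ := a n * (Cα α / n) ^ (1 / α)

/-- Expansion of form (E). The exponents are given by the sets `I` (non oscillating part) and `J`
(oscillating part), which are finite below every bound `T` (so each of them is the range of a
strictly increasing sequence that is finite or tends to infinity); the least element of `I` is `0`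
and its coefficient is `1`. -/
structure ExpansionE (α : ℝ) (a : ℕ → ℝ) (I J : Set ℝ) (A B : ℝ → ℝ) : Prop where
  I_fin : ∀ T : ℝ, (I ∩ Set.Iic T).Finite
  J_fin : ∀ T : ℝ, (J ∩ Set.Iic T).Finite
  I_least : IsLeast I 0
  A_zero : A 0 = 1
  expansion : ∀ T : ℝ, 0 < T → (fun n : ℕ => rn α a n
    - ∑ x ∈ (I_fin T).toFinset, A x * (n : ℝ) ^ (-x)
    - (-1) ^ n * ∑ y ∈ (J_fin T).toFinset, B y * (n : ℝ) ^ (-y))
      =o[atTop] fun n : ℕ => (n : ℝ) ^ (-T)

/-- The statement that Q1 asks to prove or disprove. -/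
def Question : Prop :=
  ∀ α : ℝ, 1 < α → ∀ a : ℕ → ℝ, IsRecurrence α a →
    ∃ (I J : Set ℝ) (A B : ℝ → ℝ), ExpansionE α a I J A B ∧ IsLeast J α ∧
      B α = (α - 1) * Real.sin (Real.pi * α / 2) * (1 - 1 / α) ^ α * Real.Gamma (α / 2) ^ 2 /
        (2 * Real.pi)

theorem w3_eq (x : ℝ) : Real.exp (-(|x| ^ (3 : ℝ))) = Helper649.Frd.w3 x := by
  have : |x| ^ (3 : ℝ) = |x| ^ 3 := by exact_mod_cast Real.rpow_natCast |x| 3
  rw [this]; rfl

theorem isRec_hn {a : ℕ → ℝ} (ha : IsRecurrence 3 a) :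
    ∀ n, 0 < a (n + 1) ∧ a (n + 1) ^ 2 =
      Helper649.Frd.hn Helper649.Frd.w3 (n + 1) / Helper649.Frd.hn Helper649.Frd.w3 n := by
  obtain ⟨p, hdeg, horth, h0, hrec, hpos⟩ := ha
  simp only [w3_eq] at horth
  intro n
  exact ⟨hpos n, Helper649.Frd.rec_unique Helper649.Frd.w3_isWeight Helper649.Frd.w3_even hdeg horth
    hpos h0 hrec n⟩

theorem exists_rec : ∃ a, IsRecurrence 3 a := by
  have hw := Helper649.Frd.w3_isWeight
  have hev := Helper649.Frd.w3_even
  refine ⟨Helper649.Frd.an Helper649.Frd.w3, Helper649.Frd.pn Helper649.Frd.w3,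
    fun n => ⟨Helper649.Frd.pn_natDegree hw n, Helper649.Frd.pn_leadingCoeff hw n⟩, ?_, ?_, ?_,
    fun n => Helper649.Frd.an_pos hw (n + 1)⟩
  · intro m n
    simp only [w3_eq]
    exact Helper649.Frd.pn_orthonormal hw m n
  · have := Helper649.Frd.X_mul_pn_zero hw
    rwa [Helper649.Frd.bn_zero hev, map_zero, zero_mul, add_zero] at this
  · intro n
    exact Helper649.Frd.X_mul_pn_even hw hev n

theorem exists_lower (S : Finset ℝ) (b : ℝ) (h : ∀ x ∈ S, b < x) : ∃ x0, b < x0 ∧ ∀ x ∈ S, x0 ≤ x := by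
  rcases S.eq_empty_or_nonempty with rfl | hne
  · exact ⟨b + 1, by linarith, by simp⟩
  · refine ⟨S.min' hne, h _ (S.min'_mem hne), fun x hx => S.min'_le x hx⟩

open Helper615.LogA in
theorem sum_mem_PW (q : ℝ) (S : Finset ℝ) (A : ℝ → ℝ) (h : ∀ x ∈ S, q ≤ x) :
    (∑ x ∈ S, A x • pw x) ∈ PW q :=
  Submodule.sum_mem _ fun x hx => Submodule.smul_mem _ _ (Submodule.subset_span ⟨x, h x hx, rfl⟩)

open Helper615.LogA in
theorem sum_eval_pw (S : Finset ℝ) (A : ℝ → ℝ) {n : ℕ} (hn : 1 ≤ n) :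
    (∑ x ∈ S, A x • pw x) n = ∑ x ∈ S, A x * (n : ℝ) ^ (-x) := by
  rw [Finset.sum_apply]
  refine Finset.sum_congr rfl fun x _ => ?_
  rw [b1_j5798_pw _ hn, Pi.smul_apply, smul_eq_mul]

open Helper615.LogA in
theorem no_expansion {a : ℕ → ℝ} (ha : IsRecurrence 3 a) {I J : Set ℝ} {A B : ℝ → ℝ}
    (hE : ExpansionE 3 a I J A B) (hJ : IsLeast J 3) : False := by
  classical
  have hCpos : 0 < Cα 3 := by
    unfold Cα
    refine div_pos (mul_pos (by positivity) (Real.Gamma_pos_of_pos (by norm_num)))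
      (mul_pos (Real.sqrt_pos.2 Real.pi_pos) (Real.Gamma_pos_of_pos (by norm_num)))
  set SI := (hE.I_fin 11).toFinset with hSI
  set SJ := (hE.J_fin 11).toFinset with hSJ
  have h0I : (0 : ℝ) ∈ SI := by
    simp only [hSI, Set.Finite.mem_toFinset]
    exact ⟨hE.I_least.1, by norm_num [Set.mem_Iic]⟩
  have h3J : (3 : ℝ) ∈ SJ := by
    simp only [hSJ, Set.Finite.mem_toFinset]
    exact ⟨hJ.1, by norm_num [Set.mem_Iic]⟩
  obtain ⟨x0, hx0, hx0'⟩ := exists_lower (SI.erase 0) 0 (fun x hx => by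
    rw [Finset.mem_erase, hSI, Set.Finite.mem_toFinset] at hx
    exact lt_of_le_of_ne (hE.I_least.2 hx.2.1) (Ne.symm hx.1))
  obtain ⟨y0, hy0, hy0'⟩ := exists_lower (SJ.erase 3) 3 (fun x hx => by
    rw [Finset.mem_erase, hSJ, Set.Finite.mem_toFinset] at hx
    exact lt_of_le_of_ne (hJ.2 hx.2.1) (Ne.symm hx.1))
  have hδ : 0 < min (1 / 4) (min x0 (y0 - 3)) :=
    lt_min (by norm_num) (lt_min hx0 (by linarith))
  have hδi : min (1 / 4) (min x0 (y0 - 3)) ≤ x0 := (min_le_right _ _).trans (min_le_left _ _)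
  have hδj : min (1 / 4) (min x0 (y0 - 3)) ≤ y0 - 3 := (min_le_right _ _).trans (min_le_right _ _)
  refine Helper649.Frd.final_L hCpos (isRec_hn ha) (b0 := B 3) (δ := min (1 / 4) (min x0 (y0 - 3))) hδ
    (min_le_left _ _)
    (α₁ := ∑ x ∈ SI.erase 0, A x • pw x)
    (γ := ∑ y ∈ SJ.erase 3, B y • pw y)
    (e₁ := fun n => rn 3 a n - ∑ x ∈ SI, A x * (n : ℝ) ^ (-x)
      - (-1) ^ n * ∑ y ∈ SJ, B y * (n : ℝ) ^ (-y))
    (sum_mem_PW _ _ _ fun x hx => hδi.trans (hx0' x hx))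
    (sum_mem_PW _ _ _ fun y hy => by
      have := hy0' y hy
      linarith) ?_ ?_
  · refine (hE.expansion 11 (by norm_num)).isBigO.congr' (EventuallyEq.refl _ _) ?_
    filter_upwards [eventually_ge_atTop 1] with n hn
    exact b1_j5798_pw 11 hn
  · intro n hn
    have h2 := Finset.add_sum_erase SI (fun y => A y * (n : ℝ) ^ (-y)) h0I
    have h4 := Finset.add_sum_erase SJ (fun y => B y * (n : ℝ) ^ (-y)) h3J
    simp only [hE.A_zero, neg_zero, Real.rpow_zero, one_mul] at h2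
    have h3 : rn 3 a n = a n / ((n : ℝ) / Cα 3) ^ (1 / 3 : ℝ) := by
      unfold rn
      rw [div_eq_mul_inv (a n), ← Real.inv_rpow (by positivity), inv_div]
    rw [sum_eval_pw _ _ hn, sum_eval_pw _ _ hn, ← h2, ← h4, h3, b1_j5798_pw 3 hn]
    ring

/-- The recurrence coefficients of `exp(-|x|^3)` exist, `r_n` has no expansion of form (E) with
`j_0 = 3`, and so the statement of Q1 is false. -/
theorem result : (∃ a, IsRecurrence 3 a) ∧
    (∀ a, IsRecurrence 3 a → ¬ ∃ (I J : Set ℝ) (A B : ℝ → ℝ), ExpansionE 3 a I J A B ∧ IsLeast J 3) ∧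
    ¬ Question := by
  refine ⟨exists_rec, ?_, ?_⟩
  · rintro a ha ⟨I, J, A, B, hE, hJ⟩
    exact no_expansion ha hE hJ
  · intro hQ
    obtain ⟨a, ha⟩ := exists_rec
    obtain ⟨I, J, A, B, hE, hJ, _⟩ := hQ 3 (by norm_num) a ha
    exact no_expansion ha hE hJ

end Pool.Agent.Results.MP_6cbd85_an.NoPowerExpansion
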